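import Pool.Agent.Y563.XR.P

set_option autoImplicit false

/-!
# Ellipsoids and their X-rays in two directions
-/

open MeasureTheory Set
open scoped InnerProductSpace ENNReal

namespace Pool.Agent.Y563.XR

variable {d : ℕ}

/-- The ellipsoid `{x : ‖T x - c‖ ≤ 1}`, where `T` is an invertible linear map. -/
def Ellipsoid (T : E d ≃L[ℝ] E d) (c : E d) : Set (E d) := {x | ‖T x - c‖ ≤ 1}

theorem isBody_ellipsoid (T : E d ≃L[ℝ] E d) (c : E d) : IsBody (Ellipsoid T c) := by
  have e : Ellipsoid T c = T ⁻¹' Metric.closedBall c 1 := by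
    ext x
    rw [mem_preimage, mem_closedBall_iff_norm]
    rfl
  refine ⟨?_, ?_, ?_⟩
  · rw [e]
    exact (convex_closedBall c 1).linear_preimage (T : E d →ₗ[ℝ] E d)
  · rw [e]
    exact T.toHomeomorph.isCompact_preimage.2 (isCompact_closedBall c 1)
  · refine ⟨T.symm c, mem_interior.2 ⟨T ⁻¹' Metric.ball c 1, ?_,
      Metric.isOpen_ball.preimage T.continuous, ?_⟩⟩
    · rw [e]
      exact preimage_mono Metric.ball_subset_closedBall
    · rw [mem_preimage, ContinuousLinearEquiv.apply_symm_apply]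
      exact Metric.mem_ball_self one_pos

/-- The main uniqueness statement. -/
theorem unique_ellipsoid (T : E d ≃L[ℝ] E d) (c : E d) {u v : E d} (hu : ‖u‖ = 1) (hv : ‖v‖ = 1)
    (hc : ⟪T u, T v⟫_ℝ = 0) {K' : Set (E d)} (hK' : IsBody K')
    (h1 : xray u K' = xray u (Ellipsoid T c)) (h2 : xray v K' = xray v (Ellipsoid T c)) :
    K' = Ellipsoid T c := by
  have hE : IsBody (Ellipsoid T c) := isBody_ellipsoid T c
  have hu0 : u ≠ 0 := by
    intro h; rw [h, norm_zero] at hu; exact zero_ne_one hu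
  have hTu : T u ≠ 0 := fun h => hu0 (by rwa [map_eq_zero_iff T T.injective] at h)
  have hn : ‖T u‖ ≠ 0 := norm_ne_zero_iff.2 hTu
  set e : E d := ‖T u‖⁻¹ • T u with he
  have hTe : T u = ‖T u‖ • e := by rw [he, smul_smul, mul_inv_cancel₀ hn, one_smul]
  have hne : ‖e‖ = 1 := by rw [he, norm_smul, norm_inv, norm_norm, inv_mul_cancel₀ hn]
  have hee : ⟪e, e⟫_ℝ = 1 := by rw [real_inner_self_eq_norm_sq, hne]; norm_num
  have hve : ⟪T v, e⟫_ℝ = 0 := by
    rw [he, inner_smul_right, real_inner_comm, hc, mul_zero]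
  let S : E d → E d := fun x => T x - c
  have cS : Continuous S := by fun_prop
  set K := Ellipsoid T c with hKdef
  have mK : MeasurableSet K := hE.2.1.measurableSet
  have mK' : MeasurableSet K' := hK'.2.1.measurableSet
  have fK : volume K ≠ ∞ := hE.2.1.measure_ne_top
  have fK' : volume K' ≠ ∞ := hK'.2.1.measure_ne_top
  -- the two parts of the quadratic form
  let q2 : E d → ℝ := fun x => ⟪S x, e⟫_ℝ ^ 2
  let q1 : E d → ℝ := fun x => ‖S x‖ ^ 2 - ⟪S x, e⟫_ℝ ^ 2
  have c2 : Continuous q2 := by fun_prop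
  have c1 : Continuous q1 := by fun_prop
  have n2 : ∀ x, 0 ≤ q2 x := fun x => sq_nonneg _
  have n1 : ∀ x, 0 ≤ q1 x := by
    intro x
    have h := abs_real_inner_le_norm (S x) e
    rw [hne, mul_one] at h
    have h3 := sq_le_sq' (by linarith [abs_nonneg ⟪S x, e⟫_ℝ, norm_nonneg (S x)]) h
    rw [sq_abs] at h3
    show 0 ≤ ‖S x‖ ^ 2 - ⟪S x, e⟫_ℝ ^ 2
    linarith
  have i1 : ∀ x, ∀ t : ℝ, q1 (x + t • u) = q1 x := by
    intro x t
    have e1 : S (x + t • u) = S x + (t * ‖T u‖) • e := by
      show T (x + t • u) - c = T x - c + (t * ‖T u‖) • e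
      rw [map_add, map_smul, mul_smul, ← hTe]
      abel
    show ‖S (x + t • u)‖ ^ 2 - ⟪S (x + t • u), e⟫_ℝ ^ 2 = ‖S x‖ ^ 2 - ⟪S x, e⟫_ℝ ^ 2
    rw [e1, norm_add_sq_real, inner_add_left, inner_smul_right, inner_smul_left, norm_smul, hne,
      hee, Real.norm_eq_abs, mul_one, sq_abs]
    simp only [conj_trivial]
    ring
  have i2 : ∀ x, ∀ t : ℝ, q2 (x + t • v) = q2 x := by
    intro x t
    show ⟪S (x + t • v), e⟫_ℝ ^ 2 = ⟪S x, e⟫_ℝ ^ 2
    have e1 : S (x + t • v) = S x + t • T v := by
      show T (x + t • v) - c = T x - c + t • T v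
      rw [map_add, map_smul]
      abel
    rw [e1, inner_add_left, inner_smul_left, hve, mul_zero, add_zero]
  -- equality of the moments
  have v0 : volume K' = volume K := by
    have a := lint_xray u hu mK' (g := fun _ => 1) measurable_const (fun _ _ => rfl)
    have b := lint_xray u hu mK (g := fun _ => 1) measurable_const (fun _ _ => rfl)
    rw [h1, ← b] at a
    simpa using a
  have mom1 : ∫⁻ x in K', ENNReal.ofReal (q1 x) = ∫⁻ x in K, ENNReal.ofReal (q1 x) := by
    rw [lint_xray u hu mK' (g := fun x => ENNReal.ofReal (q1 x)) (by fun_prop)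
      (fun x t => by simp only [i1]), lint_xray u hu mK (g := fun x => ENNReal.ofReal (q1 x))
      (by fun_prop) (fun x t => by simp only [i1]), h1]
  have mom2 : ∫⁻ x in K', ENNReal.ofReal (q2 x) = ∫⁻ x in K, ENNReal.ofReal (q2 x) := by
    rw [lint_xray v hv mK' (g := fun x => ENNReal.ofReal (q2 x)) (by fun_prop)
      (fun x t => by simp only [i2]), lint_xray v hv mK (g := fun x => ENNReal.ofReal (q2 x))
      (by fun_prop) (fun x t => by simp only [i2]), h2]
  let h : E d → ℝ≥0∞ := fun x => ENNReal.ofReal (‖S x‖ ^ 2)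
  have mh : Measurable h := by fun_prop
  have hsum : ∀ x, h x = ENNReal.ofReal (q1 x) + ENNReal.ofReal (q2 x) := by
    intro x
    rw [← ENNReal.ofReal_add (n1 x) (n2 x)]
    show ENNReal.ofReal (‖S x‖ ^ 2) =
      ENNReal.ofReal (‖S x‖ ^ 2 - ⟪S x, e⟫_ℝ ^ 2 + ⟪S x, e⟫_ℝ ^ 2)
    rw [sub_add_cancel]
  have mom : ∫⁻ x in K', h x = ∫⁻ x in K, h x := by
    simp only [hsum]
    rw [lintegral_add_left (by fun_prop), lintegral_add_left (by fun_prop), mom1, mom2]
  -- split
  have s1 : ∫⁻ x in K', h x = (∫⁻ x in K' ∩ K, h x) + ∫⁻ x in K' \ K, h x :=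
    (lintegral_inter_add_sdiff h K' mK).symm
  have s2 : ∫⁻ x in K, h x = (∫⁻ x in K ∩ K', h x) + ∫⁻ x in K \ K', h x :=
    (lintegral_inter_add_sdiff h K mK').symm
  have t1 : volume K' = volume (K' ∩ K) + volume (K' \ K) := (measure_inter_add_sdiff K' mK).symm
  have t2 : volume K = volume (K ∩ K') + volume (K \ K') := (measure_inter_add_sdiff K mK').symm
  have hle : ∀ x ∈ K, h x ≤ 1 := by
    intro x hx
    have hx' : ‖S x‖ ≤ 1 := hx
    show ENNReal.ofReal (‖S x‖ ^ 2) ≤ 1
    rw [ENNReal.ofReal_le_one]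
    nlinarith [norm_nonneg (S x)]
  have hgt : ∀ x, x ∉ K → 1 < h x := by
    intro x hx
    have hx' : 1 < ‖S x‖ := by
      by_contra hcon
      exact hx (not_lt.1 hcon)
    show 1 < ENNReal.ofReal (‖S x‖ ^ 2)
    rw [ENNReal.one_lt_ofReal]
    nlinarith
  have fin1 : ∫⁻ x in K ∩ K', h x ≠ ∞ := by
    have a : ∫⁻ x in K ∩ K', h x ≤ volume (K ∩ K') := by
      calc ∫⁻ x in K ∩ K', h x ≤ ∫⁻ x in K ∩ K', 1 :=
            setLIntegral_mono measurable_const (fun x hx => hle x hx.1)
        _ = volume (K ∩ K') := by simp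
    exact ne_top_of_le_ne_top fK (a.trans (measure_mono inter_subset_left))
  have fin2 : volume (K ∩ K') ≠ ∞ := ne_top_of_le_ne_top fK (measure_mono inter_subset_left)
  have eqv : volume (K' \ K) = volume (K \ K') := by
    rw [t1, t2, inter_comm K' K] at v0
    exact (ENNReal.add_right_inj fin2).1 v0
  have eqm : ∫⁻ x in K' \ K, h x = ∫⁻ x in K \ K', h x := by
    rw [s1, s2, inter_comm K' K] at mom
    exact (ENNReal.add_right_inj fin1).1 mom
  have b1 : ∫⁻ x in K \ K', h x ≤ volume (K \ K') := by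
    calc ∫⁻ x in K \ K', h x ≤ ∫⁻ x in K \ K', 1 :=
          setLIntegral_mono measurable_const (fun x hx => hle x hx.1)
      _ = volume (K \ K') := by simp
  have fin3 : volume (K' \ K) ≠ ∞ := ne_top_of_le_ne_top fK' (measure_mono sdiff_subset)
  have b2 : ∫⁻ x in K' \ K, (h x - 1) = 0 := by
    have e : ∫⁻ x in K' \ K, h x = ∫⁻ x in K' \ K, ((h x - 1) + 1) := by
      refine setLIntegral_congr_fun (mK'.diff mK) fun x hx => ?_
      exact (tsub_add_cancel_of_le (hgt x hx.2).le).symm
    rw [lintegral_add_right _ measurable_const] at e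
    have e2 : ∫⁻ x in K' \ K, (1 : ℝ≥0∞) = volume (K' \ K) := by simp
    rw [e2] at e
    have e3 : (∫⁻ x in K' \ K, (h x - 1)) + volume (K' \ K) ≤ 0 + volume (K' \ K) := by
      rw [← e, zero_add, eqm, eqv]
      exact b1
    exact le_antisymm ((ENNReal.add_le_add_iff_right fin3).1 e3) zero_le
  have z1 : volume (K' \ K) = 0 := by
    rw [lintegral_eq_zero_iff (by fun_prop)] at b2
    have b3 := (ae_restrict_iff' (mK'.diff mK)).1 b2
    refine measure_mono_null (fun x hx => ?_) (ae_iff.1 b3)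
    simp only [mem_ofPred_eq, Pi.zero_apply]
    intro hcon
    have := hcon hx
    rw [tsub_eq_zero_iff_le] at this
    exact absurd this (not_le.2 (hgt x hx.2))
  have z2 : volume (K \ K') = 0 := by rw [← eqv]; exact z1
  exact Subset.antisymm (subset_of_null hE hK' z1) (subset_of_null hK' hE z2)

/-- X-rays of preimages under affine maps -/
theorem xray_preimage (T : E d ≃L[ℝ] E d) (c : E d) {u : E d} (hu : ‖u‖ = 1) (L : Set (E d))
    (x : E d) : xray u {x | T x - c ∈ L} x =
      ENNReal.ofReal |‖T u‖⁻¹| * xray (‖T u‖⁻¹ • T u) L (T x - c) := by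
  have hu0 : u ≠ 0 := by
    intro h; rw [h, norm_zero] at hu; exact zero_ne_one hu
  have hTu : T u ≠ 0 := fun h => hu0 (by rwa [map_eq_zero_iff T T.injective] at h)
  have hn : ‖T u‖ ≠ 0 := norm_ne_zero_iff.2 hTu
  unfold xray
  have e : {t : ℝ | x + t • u ∈ {x | T x - c ∈ L}} =
      (fun t : ℝ => ‖T u‖ * t) ⁻¹' {t : ℝ | T x - c + t • (‖T u‖⁻¹ • T u) ∈ L} := by
    ext t
    simp only [mem_ofPred_eq, mem_preimage]
    have : T (x + t • u) - c = T x - c + (‖T u‖ * t) • (‖T u‖⁻¹ • T u) := by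
      rw [map_add, map_smul, smul_smul, mul_comm ‖T u‖ t, mul_assoc, mul_inv_cancel₀ hn, mul_one]
      abel
    rw [this]
  rw [e, Real.volume_preimage_mul_left hn]

/-- The body `K` is determined, among all convex bodies, by its X-rays in the directions `u`
and `v`. -/
def Determined (u v : E d) (K : Set (E d)) : Prop :=
  ∀ K' : Set (E d), IsBody K' → xray u K' = xray u K → xray v K' = xray v K → K' = K

theorem ell_zero (u : E d) : ell u 0 = {y | ‖y‖ ≤ 1} := by
  ext y
  simp [ell, sh]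

/-- **Criterion.** An ellipsoid is determined by its X-rays in the directions `u`, `v` if and only
if these directions are conjugate. -/
theorem criterion (hd : 2 ≤ d) (T : E d ≃L[ℝ] E d) (c : E d) {u v : E d} (hu : ‖u‖ = 1)
    (hv : ‖v‖ = 1) : Determined u v (Ellipsoid T c) ↔ ⟪T u, T v⟫_ℝ = 0 := by
  constructor
  · intro h
    by_contra hc
    have hu0 : u ≠ 0 := by
      intro h; rw [h, norm_zero] at hu; exact zero_ne_one hu
    have hv0 : v ≠ 0 := by
      intro h; rw [h, norm_zero] at hv; exact zero_ne_one hv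
    have hTu : T u ≠ 0 := fun h => hu0 (by rwa [map_eq_zero_iff T T.injective] at h)
    have hTv : T v ≠ 0 := fun h => hv0 (by rwa [map_eq_zero_iff T T.injective] at h)
    have hnu : ‖T u‖ ≠ 0 := norm_ne_zero_iff.2 hTu
    have hnv : ‖T v‖ ≠ 0 := norm_ne_zero_iff.2 hTv
    set u1 : E d := ‖T u‖⁻¹ • T u with hu1
    set v1 : E d := ‖T v‖⁻¹ • T v with hv1
    have n1 : ‖u1‖ = 1 := by rw [hu1, norm_smul, norm_inv, norm_norm, inv_mul_cancel₀ hnu]
    have n2 : ‖v1‖ = 1 := by rw [hv1, norm_smul, norm_inv, norm_norm, inv_mul_cancel₀ hnv]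
    have hc1 : ⟪(0 : E d), v1⟫_ℝ ≠ ⟪u1, v1⟫_ℝ := by
      rw [inner_zero_left, hu1, hv1, inner_smul_left, inner_smul_right]
      simp only [conj_trivial]
      exact (mul_ne_zero (inv_ne_zero hnu) (mul_ne_zero (inv_ne_zero hnv) hc)).symm
    obtain ⟨p', hp', hne, hx1, hx2⟩ := exists_other hd n1 n2 (inner_zero_left u1) hc1
    have hball : Ellipsoid T c = {x | T x - c ∈ ell u1 0} := by
      rw [ell_zero]
      rfl
    have hB : IsBody {x | T x - c ∈ ell u1 p'} := by
      have hb := ell_isBody u1 p' n1 hp'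
      have e : {x | T x - c ∈ ell u1 p'} = T ⁻¹' ((fun y => y - c) ⁻¹' ell u1 p') := rfl
      refine ⟨?_, ?_, ?_⟩
      · rw [e]
        have h3 : Convex ℝ ((fun y : E d => y - c) ⁻¹' ell u1 p') := by
          have := hb.1.translate_preimage_left (-c)
          simpa [sub_eq_add_neg] using this
        exact h3.linear_preimage (T : E d →ₗ[ℝ] E d)
      · rw [e]
        refine T.toHomeomorph.isCompact_preimage.2 ?_
        exact (Homeomorph.subRight c).isCompact_preimage.2 hb.2.1
      · obtain ⟨y, hy⟩ := hb.2.2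
        refine ⟨T.symm (y + c), ?_⟩
        have hcont : Continuous fun x : E d => T x - c := by fun_prop
        refine preimage_interior_subset_interior_preimage hcont ?_
        show T (T.symm (y + c)) - c ∈ interior (ell u1 p')
        rw [ContinuousLinearEquiv.apply_symm_apply, add_sub_cancel_right]
        exact hy
    have k1 : xray u {x | T x - c ∈ ell u1 p'} = xray u (Ellipsoid T c) := by
      funext x
      rw [hball, xray_preimage T c hu, xray_preimage T c hu, ← hu1, hx1]
    have k2 : xray v {x | T x - c ∈ ell u1 p'} = xray v (Ellipsoid T c) := by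
      funext x
      rw [hball, xray_preimage T c hv, xray_preimage T c hv, ← hv1, hx2]
    have heq := h _ hB k1 k2
    apply hne
    rw [hball] at heq
    ext y
    have h5 := Set.ext_iff.1 heq (T.symm (y + c))
    simp only [mem_ofPred_eq, ContinuousLinearEquiv.apply_symm_apply, add_sub_cancel_right] at h5
    exact h5
  · intro hc K' hK' h1 h2
    exact unique_ellipsoid T c hu hv hc hK' h1 h2

end Pool.Agent.Y563.XR
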