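import Pool.Agent.Y563.XR.U

set_option autoImplicit false

/-!
# Sheared balls with the same X-rays in two directions
-/

open MeasureTheory Set
open scoped InnerProductSpace ENNReal

namespace Pool.Agent.Y563.XR

variable {d : ℕ}

lemma sh_add (u p x y : E d) : sh u p (x + y) = sh u p x + sh u p y := by
  simp only [sh, inner_add_right, add_smul]; abel

lemma sh_smul (u p : E d) (c : ℝ) (x : E d) : sh u p (c • x) = c • sh u p x := by
  simp only [sh, inner_smul_right, smul_sub, mul_smul]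

lemma continuous_sh (u p : E d) : Continuous (sh u p) := by
  unfold sh
  fun_prop

lemma ell_convex (u p : E d) : Convex ℝ (ell u p) := by
  intro x hx y hy a b ha hb hab
  simp only [ell, mem_ofPred_eq] at *
  rw [sh_add, sh_smul, sh_smul]
  calc ‖a • sh u p x + b • sh u p y‖ ≤ ‖a • sh u p x‖ + ‖b • sh u p y‖ := norm_add_le _ _
    _ = a * ‖sh u p x‖ + b * ‖sh u p y‖ := by
        rw [norm_smul, norm_smul, Real.norm_of_nonneg ha, Real.norm_of_nonneg hb]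
    _ ≤ a * 1 + b * 1 := by gcongr
    _ = 1 := by linarith

lemma ell_isBody (u p : E d) (hu : ‖u‖ = 1) (hp : ⟪p, u⟫_ℝ = 0) : IsBody (ell u p) := by
  refine ⟨ell_convex u p, ?_, ?_⟩
  · -- compactness: closed and bounded
    refine Metric.isCompact_of_isClosed_isBounded ?_ ?_
    · exact isClosed_le (continuous_sh u p).norm continuous_const
    · refine (Metric.isBounded_iff_subset_closedBall 0).2 ⟨1 + ‖p‖, ?_⟩
      intro x hx
      simp only [ell, mem_ofPred_eq] at hx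
      rw [mem_closedBall_zero_iff]
      -- x = sh x + ⟨p, sh x⟩ u
      have h1 : ⟪p, sh u p x⟫_ℝ = ⟪p, x⟫_ℝ := by
        simp only [sh, inner_sub_right, inner_smul_right, hp]; ring
      have h2 : x = sh u p x + ⟪p, sh u p x⟫_ℝ • u := by
        rw [h1]; simp only [sh]; abel
      calc ‖x‖ = ‖sh u p x + ⟪p, sh u p x⟫_ℝ • u‖ := by rw [← h2]
        _ ≤ ‖sh u p x‖ + ‖⟪p, sh u p x⟫_ℝ • u‖ := norm_add_le _ _
        _ = ‖sh u p x‖ + |⟪p, sh u p x⟫_ℝ| := by rw [norm_smul, hu, mul_one, Real.norm_eq_abs]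
        _ ≤ 1 + ‖p‖ * ‖sh u p x‖ := by
            gcongr
            exact abs_real_inner_le_norm _ _
        _ ≤ 1 + ‖p‖ * 1 := by gcongr
        _ = 1 + ‖p‖ := by ring
  · refine ⟨0, ?_⟩
    have hopen : IsOpen {x : E d | ‖sh u p x‖ < 1} := isOpen_lt (continuous_sh u p).norm continuous_const
    refine mem_interior.2 ⟨{x : E d | ‖sh u p x‖ < 1}, ?_, hopen, ?_⟩
    · intro x hx
      have hx' : ‖sh u p x‖ < 1 := hx
      exact hx'.le
    · show ‖sh u p 0‖ < 1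
      simp [sh]

/-- The length of the solution set of `‖X + t W‖ ≤ 1` depends only on `‖W‖²` and the
discriminant. -/
lemma volume_line {X X' W W' : E d} (hW : W ≠ 0) (h1 : ‖W‖ ^ 2 = ‖W'‖ ^ 2)
    (h2 : ⟪X, W⟫_ℝ ^ 2 - ‖W‖ ^ 2 * (‖X‖ ^ 2 - 1) = ⟪X', W'⟫_ℝ ^ 2 - ‖W'‖ ^ 2 * (‖X'‖ ^ 2 - 1)) :
    volume {t : ℝ | ‖X + t • W‖ ≤ 1} = volume {t : ℝ | ‖X' + t • W'‖ ≤ 1} := by
  have ha : 0 < ‖W‖ ^ 2 := by positivity
  have ha' : 0 < ‖W'‖ ^ 2 := by rw [← h1]; exact ha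
  have key : ∀ (Y V : E d), 0 < ‖V‖ ^ 2 →
      volume {t : ℝ | ‖Y + t • V‖ ≤ 1} =
        volume {s : ℝ | (‖V‖ ^ 2 * s) ^ 2 ≤ ⟪Y, V⟫_ℝ ^ 2 - ‖V‖ ^ 2 * (‖Y‖ ^ 2 - 1)} := by
    intro Y V hV
    have hset : {t : ℝ | ‖Y + t • V‖ ≤ 1} =
        (fun t : ℝ => t + ⟪Y, V⟫_ℝ / ‖V‖ ^ 2) ⁻¹'
          {s : ℝ | (‖V‖ ^ 2 * s) ^ 2 ≤ ⟪Y, V⟫_ℝ ^ 2 - ‖V‖ ^ 2 * (‖Y‖ ^ 2 - 1)} := by
      ext t
      simp only [mem_ofPred_eq, mem_preimage]
      have e1 : ‖Y + t • V‖ ^ 2 = ‖Y‖ ^ 2 + 2 * t * ⟪Y, V⟫_ℝ + t ^ 2 * ‖V‖ ^ 2 := by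
        rw [norm_add_sq_real, inner_smul_right, norm_smul, mul_pow, Real.norm_eq_abs, sq_abs]
        ring
      have e2 : ‖V‖ ^ 2 * (t + ⟪Y, V⟫_ℝ / ‖V‖ ^ 2) = ‖V‖ ^ 2 * t + ⟪Y, V⟫_ℝ := by
        rw [mul_add, mul_div_cancel₀ _ hV.ne']
      rw [e2]
      have e3 : ‖Y + t • V‖ ≤ 1 ↔ ‖Y + t • V‖ ^ 2 ≤ 1 := by
        rw [sq_le_one_iff₀ (norm_nonneg _)]
      rw [e3, e1]
      constructor
      · intro h
        nlinarith
      · intro h
        by_contra hcon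
        push Not at hcon
        have : 0 < ‖V‖ ^ 2 * (‖Y‖ ^ 2 + 2 * t * ⟪Y, V⟫_ℝ + t ^ 2 * ‖V‖ ^ 2 - 1) := by
          apply mul_pos hV; linarith
        nlinarith
    rw [hset, measure_preimage_add_right]
  rw [key X W ha, key X' W' ha', ← h2, ← h1]

lemma line_mem (u p v x : E d) (t : ℝ) :
    x + t • v ∈ ell u p ↔ ‖sh u p x + t • sh u p v‖ ≤ 1 := by
  simp only [ell, mem_ofPred_eq, sh_add, sh_smul]

/-- All sheared balls have the X-ray of the unit ball in direction `u`. -/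
lemma xray_u (u p : E d) (hu : ‖u‖ = 1) (hp : ⟪p, u⟫_ℝ = 0) (x : E d) :
    xray u (ell u p) x = xray u (ell u 0) x := by
  have hW : ∀ q : E d, ⟪q, u⟫_ℝ = 0 → sh u q u = u := by
    intro q hq; simp [sh, hq]
  have h0 : ⟪(0 : E d), u⟫_ℝ = 0 := inner_zero_left _
  simp only [xray, line_mem, hW p hp, hW 0 h0]
  have hu0 : u ≠ 0 := by
    intro h; rw [h, norm_zero] at hu; exact zero_ne_one hu
  apply volume_line hu0 rfl
  have huu : ⟪u, u⟫_ℝ = 1 := by rw [real_inner_self_eq_norm_sq, hu]; norm_num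
  have e1 : ∀ q : E d, ⟪sh u q x, u⟫_ℝ = ⟪x, u⟫_ℝ - ⟪q, x⟫_ℝ := by
    intro q; simp only [sh, inner_sub_left, inner_smul_left, huu]; simp
  have e2 : ∀ q : E d, ‖sh u q x‖ ^ 2 = ‖x‖ ^ 2 - 2 * ⟪q, x⟫_ℝ * ⟪x, u⟫_ℝ + ⟪q, x⟫_ℝ ^ 2 := by
    intro q
    simp only [sh]
    rw [norm_sub_sq_real, inner_smul_right, norm_smul, hu, mul_one, Real.norm_eq_abs, sq_abs]
    ring
  rw [e1, e1, e2, e2, hu]
  ring


/-- The partner of `p`: the bodies `ell u p` and `ell u p'` have the same X-ray in direction `v`. -/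
lemma xray_pair (u v : E d) (hu : ‖u‖ = 1) (p w : E d) (β A : ℝ) (hA : 0 < A)
    (hp : ⟪p, u⟫_ℝ = 0) (hwu : ⟪w, u⟫_ℝ = 0) (hw : ‖w‖ ^ 2 = A) (hv : v = w + β • u) (x : E d) :
    xray v (ell u p) x = xray v (ell u (p - (2 * (⟪p, w⟫_ℝ - β) / A) • w)) x := by
  have huu : ⟪u, u⟫_ℝ = 1 := by rw [real_inner_self_eq_norm_sq, hu]; norm_num
  have hww : ⟪w, w⟫_ℝ = A := by rw [real_inner_self_eq_norm_sq, hw]
  have huw : ⟪u, w⟫_ℝ = 0 := by rw [real_inner_comm]; exact hwu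
  set δ : ℝ := ⟪p, w⟫_ℝ - β with hδ
  have hτ : ⟪p, w⟫_ℝ = δ + β := by rw [hδ]; ring
  have hA' : A ≠ 0 := hA.ne'
  simp only [xray, line_mem]
  have hv1 : sh u p v = w - δ • u := by
    have : ⟪p, v⟫_ℝ = δ + β := by
      rw [hv, inner_add_right, inner_smul_right, hp, hτ]; ring
    simp only [sh]
    rw [this, hv]
    module
  have hv2 : sh u (p - (2 * δ / A) • w) v = w + δ • u := by
    have : ⟪p - (2 * δ / A) • w, v⟫_ℝ = β - δ := by
      rw [hv, inner_sub_left, inner_smul_left, inner_add_right, inner_add_right, inner_smul_right,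
        inner_smul_right, hp, hτ, hww, hwu]
      simp only [conj_trivial]
      field_simp
      ring
    simp only [sh]
    rw [this, hv]
    module
  have hx2 : ⟪p - (2 * δ / A) • w, x⟫_ℝ = ⟪p, x⟫_ℝ - (2 * δ / A) * ⟪w, x⟫_ℝ := by
    rw [inner_sub_left, inner_smul_left]
    simp only [conj_trivial]
  have n1 : ‖w - δ • u‖ ^ 2 = A + δ ^ 2 := by
    rw [norm_sub_sq_real, inner_smul_right, norm_smul, hu, hwu, hw, mul_one, Real.norm_eq_abs,
      sq_abs]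
    ring
  have n1' : ‖w + δ • u‖ ^ 2 = A + δ ^ 2 := by
    rw [norm_add_sq_real, inner_smul_right, norm_smul, hu, hwu, hw, mul_one, Real.norm_eq_abs,
      sq_abs]
    ring
  have n2 : ∀ s : ℝ, ‖x - s • u‖ ^ 2 = ‖x‖ ^ 2 - 2 * s * ⟪x, u⟫_ℝ + s ^ 2 := by
    intro s
    rw [norm_sub_sq_real, inner_smul_right, norm_smul, hu, mul_one, Real.norm_eq_abs, sq_abs]
    ring
  have n3 : ∀ s r : ℝ, ⟪x - s • u, w + r • u⟫_ℝ = ⟪w, x⟫_ℝ + r * (⟪x, u⟫_ℝ - s) := by
    intro s r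
    simp only [inner_sub_left, inner_add_right, inner_smul_left, inner_smul_right, huu, huw]
    rw [real_inner_comm x w]
    simp
  have hne : w - δ • u ≠ 0 := by
    intro h
    have := n1
    rw [h, norm_zero] at this
    nlinarith [sq_nonneg δ]
  rw [hv1, hv2]
  apply volume_line hne
  · rw [n1, n1']
  · have hm : w - δ • u = w + (-δ) • u := by module
    rw [n1, n1', hm]
    simp only [sh]
    rw [hx2, n2, n2, n3, n3]
    field_simp
    ring

lemma exists_perp (hd : 2 ≤ d) (u : E d) : ∃ e : E d, ‖e‖ = 1 ∧ ⟪e, u⟫_ℝ = 0 := by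
  classical
  have hdim : Module.finrank ℝ (E d) = d := by simp
  have h1 : Module.finrank ℝ (Submodule.span ℝ ({u} : Set (E d))) ≤ 1 :=
    (finrank_span_le_card _).trans (by simp)
  have hne : (Submodule.span ℝ ({u} : Set (E d)))ᗮ ≠ ⊥ := by
    intro hbot
    have := Submodule.finrank_add_finrank_orthogonal (Submodule.span ℝ ({u} : Set (E d)))
    rw [hbot, hdim] at this
    simp at this
    omega
  obtain ⟨w, hw, hw0⟩ := Submodule.exists_mem_ne_zero_of_ne_bot hne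
  refine ⟨(‖w‖⁻¹) • w, ?_, ?_⟩
  · rw [norm_smul, norm_inv, norm_norm, inv_mul_cancel₀ (norm_ne_zero_iff.2 hw0)]
  · have : ⟪u, w⟫_ℝ = 0 := hw u (Submodule.mem_span_singleton_self u)
    rw [inner_smul_left, real_inner_comm, this]; simp

/-- Two different shears give different bodies. -/
lemma ell_ne (u p q e : E d) (hu : ‖u‖ = 1) (he : ‖e‖ = 1) (heu : ⟪e, u⟫_ℝ = 0)
    (hp : ⟪p, u⟫_ℝ = 0) (hq : ⟪q, u⟫_ℝ = 0) (hpq : ⟪p - q, e⟫_ℝ ≠ 0) : ell u p ≠ ell u q := by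
  intro h
  set x : E d := e + ⟪p, e⟫_ℝ • u with hx
  have h1 : sh u p x = e := by
    simp only [sh, hx, inner_add_right, inner_smul_right, hp]
    module
  have h2 : sh u q x = e + ⟪p - q, e⟫_ℝ • u := by
    simp only [sh, hx, inner_add_right, inner_smul_right, hq, inner_sub_left]
    module
  have hxp : x ∈ ell u p := by
    simp only [ell, mem_ofPred_eq, h1, he]; exact le_refl _
  rw [h] at hxp
  simp only [ell, mem_ofPred_eq, h2] at hxp
  have h3 : ‖e + ⟪p - q, e⟫_ℝ • u‖ ^ 2 = 1 + ⟪p - q, e⟫_ℝ ^ 2 := by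
    rw [norm_add_sq_real, inner_smul_right, norm_smul, hu, he, heu, mul_one, Real.norm_eq_abs,
      sq_abs]
    ring
  have h4 : ‖e + ⟪p - q, e⟫_ℝ • u‖ ^ 2 ≤ 1 := by
    rw [sq_le_one_iff₀ (norm_nonneg _)]; exact hxp
  have h5 : 0 < ⟪p - q, e⟫_ℝ ^ 2 := by positivity
  linarith


/-- a body `ell u p` which is not determined by its X-rays in the directions `u`, `v` -/
theorem exists_other (hd : 2 ≤ d) {u p v : E d} (hu : ‖u‖ = 1) (hv : ‖v‖ = 1)
    (hp : ⟪p, u⟫_ℝ = 0) (hc : ⟪p, v⟫_ℝ ≠ ⟪u, v⟫_ℝ) :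
    ∃ p' : E d, ⟪p', u⟫_ℝ = 0 ∧ ell u p' ≠ ell u p ∧ xray u (ell u p') = xray u (ell u p) ∧
      xray v (ell u p') = xray v (ell u p) := by
  have huu : ⟪u, u⟫_ℝ = 1 := by rw [real_inner_self_eq_norm_sq, hu]; norm_num
  have hX : ∀ q q' : E d, ⟪q, u⟫_ℝ = 0 → ⟪q', u⟫_ℝ = 0 → xray u (ell u q) = xray u (ell u q') := by
    intro q q' h h'
    funext x
    rw [xray_u u q hu h x, xray_u u q' hu h' x]
  set β : ℝ := ⟪v, u⟫_ℝ with hβ
  set w : E d := v - β • u with hw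
  have hwu : ⟪w, u⟫_ℝ = 0 := by
    rw [hw, inner_sub_left, inner_smul_left, huu]; simp [hβ]
  have hvw : v = w + β • u := by rw [hw]; abel
  by_cases h0 : w = 0
  · obtain ⟨e, he, heu⟩ := exists_perp hd u
    have hvu : v = β • u := by rw [hvw, h0, zero_add]
    have hβ2 : β ^ 2 = 1 := by
      have : ‖v‖ ^ 2 = 1 := by rw [hv]; norm_num
      rw [hvu, norm_smul, hu, mul_one, Real.norm_eq_abs, sq_abs] at this
      exact this
    have hpe : ⟪p + e, u⟫_ℝ = 0 := by rw [inner_add_left, hp, heu, add_zero]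
    refine ⟨p + e, hpe, ?_, hX _ _ hpe hp, ?_⟩
    · apply ell_ne u _ _ e hu he heu hpe hp
      rw [add_sub_cancel_left, real_inner_self_eq_norm_sq, he]
      norm_num
    · have hneg : ∀ K : Set (E d), xray v K = xray u K := by
        intro K
        funext x
        have hβ3 : β = 1 ∨ β = -1 := by
          have : (β - 1) * (β + 1) = 0 := by linear_combination hβ2
          rcases mul_eq_zero.1 this with h | h
          · left; linarith
          · right; linarith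
        rcases hβ3 with h | h
        · simp only [xray, hvu, h, one_smul]
        · simp only [xray, hvu, h]
          have : {t : ℝ | x + t • (-1 : ℝ) • u ∈ K} = Neg.neg ⁻¹' {t : ℝ | x + t • u ∈ K} := by
            ext t
            simp
          rw [this, Measure.measure_preimage_neg]
      rw [hneg, hneg, hX _ _ hpe hp]
  · have hA : 0 < ‖w‖ ^ 2 := by positivity
    have hn : ‖w‖ ≠ 0 := norm_ne_zero_iff.2 h0
    have hδ : ⟪p, w⟫_ℝ - β ≠ 0 := by
      intro h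
      apply hc
      have huw : ⟪u, w⟫_ℝ = 0 := by rw [real_inner_comm]; exact hwu
      rw [hvw, inner_add_right, inner_smul_right, hp, inner_add_right, inner_smul_right, huu, huw]
      linarith
    set p' : E d := p - (2 * (⟪p, w⟫_ℝ - β) / ‖w‖ ^ 2) • w with hp'
    have hpu' : ⟪p', u⟫_ℝ = 0 := by
      rw [hp', inner_sub_left, inner_smul_left, hp, hwu]; simp
    refine ⟨p', hpu', ?_, hX _ _ hpu' hp, ?_⟩
    · apply ell_ne u p' p ((‖w‖⁻¹) • w) hu ?_ ?_ hpu' hp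
      · have : p' - p = (-(2 * (⟪p, w⟫_ℝ - β) / ‖w‖ ^ 2)) • w := by rw [hp']; module
        rw [this, inner_smul_left, inner_smul_right, real_inner_self_eq_norm_sq]
        simp only [conj_trivial]
        refine mul_ne_zero ?_ (mul_ne_zero (inv_ne_zero hn) (pow_ne_zero 2 hn))
        exact neg_ne_zero.2 (div_ne_zero (mul_ne_zero two_ne_zero hδ) (pow_ne_zero 2 hn))
      · rw [norm_smul, norm_inv, norm_norm, inv_mul_cancel₀ hn]
      · rw [inner_smul_left, hwu]; simp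
    · funext x
      exact (xray_pair u v hu p w β (‖w‖ ^ 2) hA hp hwu rfl hvw x).symm

/-- a direction conjugate to `u` for `ell u p` -/
theorem exists_conj (hd : 2 ≤ d) {u p : E d} (hu : ‖u‖ = 1) (hp : ⟪p, u⟫_ℝ = 0) :
    ∃ v : E d, ‖v‖ = 1 ∧ ⟪p, v⟫_ℝ = ⟪u, v⟫_ℝ := by
  have huu : ⟪u, u⟫_ℝ = 1 := by rw [real_inner_self_eq_norm_sq, hu]; norm_num
  obtain ⟨e, he, heu⟩ := exists_perp hd u
  have hue : ⟪u, e⟫_ℝ = 0 := by rw [real_inner_comm]; exact heu
  set z : E d := e + ⟪p, e⟫_ℝ • u with hz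
  have hz0 : z ≠ 0 := by
    intro h
    have : ⟪z, e⟫_ℝ = 1 := by
      rw [hz, inner_add_left, inner_smul_left, hue, real_inner_self_eq_norm_sq, he]; simp
    rw [h, inner_zero_left] at this
    exact zero_ne_one this
  have hn : ‖z‖ ≠ 0 := norm_ne_zero_iff.2 hz0
  refine ⟨(‖z‖⁻¹) • z, by rw [norm_smul, norm_inv, norm_norm, inv_mul_cancel₀ hn], ?_⟩
  rw [inner_smul_right, inner_smul_right, hz, inner_add_right, inner_smul_right, hp,
    inner_add_right, inner_smul_right, huu, hue]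
  ring

end Pool.Agent.Y563.XR
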