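import Mathlib

set_option autoImplicit false

/-!
# Uniqueness of a sheared ball with two conjugate X-rays
-/

open MeasureTheory Set
open scoped InnerProductSpace ENNReal

namespace Pool.Agent.Y563.XR

/-- Euclidean `d`-space. -/
abbrev E (d : ℕ) : Type := EuclideanSpace ℝ (Fin d)

variable {d : ℕ}

/-- A convex body: a compact convex set with nonempty interior. -/
def IsBody (K : Set (E d)) : Prop :=
  Convex ℝ K ∧ IsCompact K ∧ (interior K).Nonempty

/-- The X-ray of `K` in the direction `u`: the length of the intersection of `K` with the line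
through `x` parallel to `u` (for a unit vector `u`). -/
noncomputable def xray (u : E d) (K : Set (E d)) (x : E d) : ℝ≥0∞ :=
  volume {t : ℝ | x + t • u ∈ K}

/-- The shear `x ↦ x - ⟨p, x⟩ u`. -/
noncomputable def sh (u p x : E d) : E d := x - ⟪p, x⟫_ℝ • u

/-- The sheared unit ball. -/
def ell (u p : E d) : Set (E d) := {x : E d | ‖sh u p x‖ ≤ 1}

/-- the slab `0 ≤ ⟨x, u⟩ < 1` -/
def Slab (u : E d) : Set (E d) := {x | ⟪x, u⟫_ℝ ∈ Ico (0 : ℝ) 1}

theorem meas_slab (u : E d) : MeasurableSet (Slab u) := by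
  have h : Measurable fun x : E d => ⟪x, u⟫_ℝ := by fun_prop
  exact h measurableSet_Ico

/-- the integral of a function invariant in the direction `u` over `K` is determined by the
X-ray of `K` in the direction `u` -/
theorem lint_xray (u : E d) (hu : ‖u‖ = 1) {K : Set (E d)} (hK : MeasurableSet K)
    {g : E d → ℝ≥0∞} (hg : Measurable g) (hinv : ∀ x, ∀ t : ℝ, g (x + t • u) = g x) :
    ∫⁻ x in K, g x = ∫⁻ x, (Slab u).indicator 1 x * g x * xray u K x := by
  have huu : ⟪u, u⟫_ℝ = 1 := by rw [real_inner_self_eq_norm_sq, hu]; norm_num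
  have hS := meas_slab u
  have m1 : Measurable fun p : E d × ℝ => p.1 + p.2 • u := by fun_prop
  have m2 : Measurable fun p : ℝ × E d => p.2 - p.1 • u := by fun_prop
  -- the X-ray as an integral
  have hx : ∀ x : E d, xray u K x = ∫⁻ t : ℝ, K.indicator (1 : E d → ℝ≥0∞) (x + t • u) := by
    intro x
    have hm : Measurable fun t : ℝ => x + t • u := by fun_prop
    have : (fun t : ℝ => K.indicator (1 : E d → ℝ≥0∞) (x + t • u)) =
        {t : ℝ | x + t • u ∈ K}.indicator 1 := by
      funext t
      by_cases h : x + t • u ∈ K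
      · rw [indicator_of_mem h, indicator_of_mem (show t ∈ {t : ℝ | x + t • u ∈ K} from h)]
        rfl
      · rw [indicator_of_notMem h, indicator_of_notMem (show t ∉ {t : ℝ | x + t • u ∈ K} from h)]
    have hms : MeasurableSet {t : ℝ | x + t • u ∈ K} := hm hK
    rw [this, lintegral_indicator_one hms]
    rfl
  have hS1 : ∀ x : E d, ∫⁻ t : ℝ, (Slab u).indicator (1 : E d → ℝ≥0∞) (x - t • u) = 1 := by
    intro x
    have : (fun t : ℝ => (Slab u).indicator (1 : E d → ℝ≥0∞) (x - t • u)) =
        (Ioc (⟪x, u⟫_ℝ - 1) ⟪x, u⟫_ℝ).indicator 1 := by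
      funext t
      have h1 : x - t • u ∈ Slab u ↔ t ∈ Ioc (⟪x, u⟫_ℝ - 1) ⟪x, u⟫_ℝ := by
        unfold Slab
        simp only [mem_ofPred_eq, mem_Ico, mem_Ioc, inner_sub_left, inner_smul_left, huu]
        simp only [conj_trivial, mul_one]
        constructor
        · rintro ⟨a, b⟩; constructor <;> linarith
        · rintro ⟨a, b⟩; constructor <;> linarith
      by_cases h : x - t • u ∈ Slab u
      · rw [indicator_of_mem h, indicator_of_mem (h1.1 h)]
        rfl
      · rw [indicator_of_notMem h, indicator_of_notMem (fun h' => h (h1.2 h'))]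
    rw [this, lintegral_indicator_one measurableSet_Ioc, Real.volume_Ioc]
    simp
  have mK : Measurable (K.indicator (1 : E d → ℝ≥0∞)) := measurable_one.indicator hK
  have mS : Measurable ((Slab u).indicator (1 : E d → ℝ≥0∞)) := measurable_one.indicator hS
  calc ∫⁻ x in K, g x = ∫⁻ x, K.indicator 1 x * g x := by
        rw [← lintegral_indicator hK]
        congr 1
        funext x
        by_cases h : x ∈ K
        · simp [h]
        · simp [h]
    _ = ∫⁻ x, ∫⁻ t : ℝ, K.indicator 1 x * g x * (Slab u).indicator 1 (x - t • u) := by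
        congr 1
        funext x
        rw [lintegral_const_mul, hS1, mul_one]
        exact mS.comp (by fun_prop)
    _ = ∫⁻ t : ℝ, ∫⁻ x, K.indicator 1 x * g x * (Slab u).indicator 1 (x - t • u) := by
        apply lintegral_lintegral_swap
        refine Measurable.aemeasurable ?_
        refine ((mK.comp measurable_fst).mul (hg.comp measurable_fst)).mul (mS.comp ?_)
        fun_prop
    _ = ∫⁻ t : ℝ, ∫⁻ x, K.indicator 1 (x + t • u) * g x * (Slab u).indicator 1 x := by
        congr 1
        funext t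
        rw [← lintegral_add_right_eq_self (μ := (volume : Measure (E d)))
          (fun x => K.indicator 1 x * g x * (Slab u).indicator 1 (x - t • u)) (t • u)]
        congr 1
        funext x
        rw [hinv, add_sub_cancel_right]
    _ = ∫⁻ x, ∫⁻ t : ℝ, K.indicator 1 (x + t • u) * g x * (Slab u).indicator 1 x := by
        symm
        apply lintegral_lintegral_swap
        refine Measurable.aemeasurable ?_
        refine ((mK.comp m1).mul (hg.comp measurable_fst)).mul (mS.comp measurable_fst)
    _ = ∫⁻ x, (Slab u).indicator 1 x * g x * xray u K x := by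
        congr 1
        funext x
        rw [hx, ← lintegral_const_mul]
        · congr 1
          funext t
          ring
        · exact mK.comp (by fun_prop)

/-- bodies which differ by null sets are equal -/
theorem subset_of_null {K K' : Set (E d)} (hK : IsBody K) (hK' : IsBody K')
    (h : volume (K' \ K) = 0) : K' ⊆ K := by
  have hcl : IsClosed K := hK.2.1.isClosed
  have ho : IsOpen (interior K' \ K) := isOpen_interior.sdiff hcl
  have h0 : volume (interior K' \ K) = 0 :=
    measure_mono_null (sdiff_subset_sdiff_left interior_subset) h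
  have he : interior K' \ K = ∅ := (ho.measure_eq_zero_iff volume).1 h0
  have h1 : interior K' ⊆ K := sdiff_eq_empty.1 he
  have h2 : closure (interior K') ⊆ K := closure_minimal h1 hcl
  rw [hK'.1.closure_interior_eq_closure_of_nonempty_interior hK'.2.2] at h2
  exact subset_closure.trans h2

/-- The main uniqueness statement. -/
theorem unique_ell {u p v : E d} (hu : ‖u‖ = 1) (hv : ‖v‖ = 1) (hp : ⟪p, u⟫_ℝ = 0)
    (hc : ⟪p, v⟫_ℝ = ⟪u, v⟫_ℝ) (hE : IsBody (ell u p)) {K' : Set (E d)} (hK' : IsBody K')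
    (h1 : xray u K' = xray u (ell u p)) (h2 : xray v K' = xray v (ell u p)) :
    K' = ell u p := by
  have huu : ⟪u, u⟫_ℝ = 1 := by rw [real_inner_self_eq_norm_sq, hu]; norm_num
  set K := ell u p with hKdef
  have mK : MeasurableSet K := hE.2.1.measurableSet
  have mK' : MeasurableSet K' := hK'.2.1.measurableSet
  have fK : volume K ≠ ∞ := hE.2.1.measure_ne_top
  have fK' : volume K' ≠ ∞ := hK'.2.1.measure_ne_top
  have cS : Continuous (sh u p) := by unfold sh; fun_prop
  -- the two parts of the quadratic form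
  let q2 : E d → ℝ := fun x => ⟪sh u p x, u⟫_ℝ ^ 2
  let q1 : E d → ℝ := fun x => ‖sh u p x‖ ^ 2 - ⟪sh u p x, u⟫_ℝ ^ 2
  have c2 : Continuous q2 := by fun_prop
  have c1 : Continuous q1 := by fun_prop
  have n2 : ∀ x, 0 ≤ q2 x := fun x => sq_nonneg _
  have n1 : ∀ x, 0 ≤ q1 x := by
    intro x
    have h := abs_real_inner_le_norm (sh u p x) u
    rw [hu, mul_one] at h
    have h3 := sq_le_sq' (by linarith [abs_nonneg ⟪sh u p x, u⟫_ℝ, norm_nonneg (sh u p x)]) h
    rw [sq_abs] at h3
    show 0 ≤ ‖sh u p x‖ ^ 2 - ⟪sh u p x, u⟫_ℝ ^ 2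
    linarith
  have i1 : ∀ x, ∀ t : ℝ, q1 (x + t • u) = q1 x := by
    intro x t
    have e : sh u p (x + t • u) = sh u p x + t • u := by
      simp only [sh, inner_add_right, inner_smul_right, hp]
      module
    show ‖sh u p (x + t • u)‖ ^ 2 - ⟪sh u p (x + t • u), u⟫_ℝ ^ 2 =
      ‖sh u p x‖ ^ 2 - ⟪sh u p x, u⟫_ℝ ^ 2
    rw [e, norm_add_sq_real, inner_add_left, inner_smul_right, inner_smul_left, norm_smul, hu, huu,
      Real.norm_eq_abs, mul_one, sq_abs]
    simp only [conj_trivial]
    ring
  have i2 : ∀ x, ∀ t : ℝ, q2 (x + t • v) = q2 x := by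
    intro x t
    show ⟪sh u p (x + t • v), u⟫_ℝ ^ 2 = ⟪sh u p x, u⟫_ℝ ^ 2
    have e : ⟪sh u p (x + t • v), u⟫_ℝ = ⟪sh u p x, u⟫_ℝ := by
      simp only [sh, inner_add_right, inner_smul_right, inner_sub_left, inner_add_left,
        inner_smul_left, huu, hc, real_inner_comm v u]
      simp only [conj_trivial]
      ring
    rw [e]
  -- equality of the moments
  have v0 : volume K' = volume K := by
    have a := lint_xray u hu mK' (g := fun _ => 1) measurable_const (fun _ _ => rfl)
    have b := lint_xray u hu mK (g := fun _ => 1) measurable_const (fun _ _ => rfl)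
    rw [h1, ← b] at a
    simpa using a
  have mom1 : ∫⁻ x in K', ENNReal.ofReal (q1 x) = ∫⁻ x in K, ENNReal.ofReal (q1 x) := by
    rw [lint_xray u hu mK' (g := fun x => ENNReal.ofReal (q1 x)) (by fun_prop)
      (fun x t => by simp only [i1]), lint_xray u hu mK (g := fun x => ENNReal.ofReal (q1 x))
      (by fun_prop) (fun x t => by simp only [i1]), h1]
  have mom2 : ∫⁻ x in K', ENNReal.ofReal (q2 x) = ∫⁻ x in K, ENNReal.ofReal (q2 x) := by
    rw [lint_xray v hv mK' (g := fun x => ENNReal.ofReal (q2 x)) (by fun_prop)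
      (fun x t => by simp only [i2]), lint_xray v hv mK (g := fun x => ENNReal.ofReal (q2 x))
      (by fun_prop) (fun x t => by simp only [i2]), h2]
  let h : E d → ℝ≥0∞ := fun x => ENNReal.ofReal (‖sh u p x‖ ^ 2)
  have mh : Measurable h := by fun_prop
  have hsum : ∀ x, h x = ENNReal.ofReal (q1 x) + ENNReal.ofReal (q2 x) := by
    intro x
    rw [← ENNReal.ofReal_add (n1 x) (n2 x)]
    show ENNReal.ofReal (‖sh u p x‖ ^ 2) =
      ENNReal.ofReal (‖sh u p x‖ ^ 2 - ⟪sh u p x, u⟫_ℝ ^ 2 + ⟪sh u p x, u⟫_ℝ ^ 2)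
    rw [sub_add_cancel]
  have mom : ∫⁻ x in K', h x = ∫⁻ x in K, h x := by
    simp only [hsum]
    rw [lintegral_add_left (by fun_prop), lintegral_add_left (by fun_prop), mom1, mom2]
  -- split
  have s1 : ∫⁻ x in K', h x = (∫⁻ x in K' ∩ K, h x) + ∫⁻ x in K' \ K, h x :=
    (lintegral_inter_add_sdiff h K' mK).symm
  have s2 : ∫⁻ x in K, h x = (∫⁻ x in K ∩ K', h x) + ∫⁻ x in K \ K', h x :=
    (lintegral_inter_add_sdiff h K mK').symm
  have t1 : volume K' = volume (K' ∩ K) + volume (K' \ K) := (measure_inter_add_sdiff K' mK).symm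
  have t2 : volume K = volume (K ∩ K') + volume (K \ K') := (measure_inter_add_sdiff K mK').symm
  have hle : ∀ x ∈ K, h x ≤ 1 := by
    intro x hx
    have hx' : ‖sh u p x‖ ≤ 1 := hx
    show ENNReal.ofReal (‖sh u p x‖ ^ 2) ≤ 1
    rw [ENNReal.ofReal_le_one]
    nlinarith [norm_nonneg (sh u p x)]
  have hgt : ∀ x, x ∉ K → 1 < h x := by
    intro x hx
    have hx' : 1 < ‖sh u p x‖ := by
      by_contra hcon
      exact hx (not_lt.1 hcon)
    show 1 < ENNReal.ofReal (‖sh u p x‖ ^ 2)
    rw [ENNReal.one_lt_ofReal]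
    nlinarith
  have fin1 : ∫⁻ x in K ∩ K', h x ≠ ∞ := by
    have a : ∫⁻ x in K ∩ K', h x ≤ volume (K ∩ K') := by
      calc ∫⁻ x in K ∩ K', h x ≤ ∫⁻ x in K ∩ K', 1 :=
            setLIntegral_mono measurable_const (fun x hx => hle x hx.1)
        _ = volume (K ∩ K') := by simp
    exact ne_top_of_le_ne_top fK (a.trans (measure_mono inter_subset_left))
  have fin2 : volume (K ∩ K') ≠ ∞ := ne_top_of_le_ne_top fK (measure_mono inter_subset_left)
  have eqv : volume (K' \ K) = volume (K \ K') := by
    rw [t1, t2, inter_comm K' K] at v0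
    exact (ENNReal.add_right_inj fin2).1 v0
  have eqm : ∫⁻ x in K' \ K, h x = ∫⁻ x in K \ K', h x := by
    rw [s1, s2, inter_comm K' K] at mom
    exact (ENNReal.add_right_inj fin1).1 mom
  have b1 : ∫⁻ x in K \ K', h x ≤ volume (K \ K') := by
    calc ∫⁻ x in K \ K', h x ≤ ∫⁻ x in K \ K', 1 :=
          setLIntegral_mono measurable_const (fun x hx => hle x hx.1)
      _ = volume (K \ K') := by simp
  have fin3 : volume (K' \ K) ≠ ∞ := ne_top_of_le_ne_top fK' (measure_mono sdiff_subset)
  have b2 : ∫⁻ x in K' \ K, (h x - 1) = 0 := by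
    have e : ∫⁻ x in K' \ K, h x = ∫⁻ x in K' \ K, ((h x - 1) + 1) := by
      refine setLIntegral_congr_fun (mK'.diff mK) fun x hx => ?_
      exact (tsub_add_cancel_of_le (hgt x hx.2).le).symm
    rw [lintegral_add_right _ measurable_const] at e
    have e2 : ∫⁻ x in K' \ K, (1 : ℝ≥0∞) = volume (K' \ K) := by simp
    rw [e2] at e
    have e3 : (∫⁻ x in K' \ K, (h x - 1)) + volume (K' \ K) ≤ 0 + volume (K' \ K) := by
      rw [← e, zero_add, eqm, eqv]
      exact b1
    exact le_antisymm ((ENNReal.add_le_add_iff_right fin3).1 e3) zero_le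
  have z1 : volume (K' \ K) = 0 := by
    rw [lintegral_eq_zero_iff (by fun_prop)] at b2
    have b3 := (ae_restrict_iff' (mK'.diff mK)).1 b2
    refine measure_mono_null (fun x hx => ?_) (ae_iff.1 b3)
    simp only [mem_ofPred_eq, Pi.zero_apply]
    intro hcon
    have := hcon hx
    rw [tsub_eq_zero_iff_le] at this
    exact absurd this (not_le.2 (hgt x hx.2))
  have z2 : volume (K \ K') = 0 := by rw [← eqv]; exact z1
  exact Subset.antisymm (subset_of_null hE hK' z1) (subset_of_null hK' hE z2)

end Pool.Agent.Y563.XR
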